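import Pool.Agent.H104R3.EG.Stmts

/-! Task A1 of project EG: combination of systems. -/

set_option autoImplicit false

namespace Pool.Agent.H104R3.EG

section
variable {G : Type} [Group G] (S₁ S₂ : Sys G)

def combK : Option (S₁.ι ⊕ S₂.ι) → Subgroup G
  | none => ⊥
  | some (Sum.inl i) => S₁.K i
  | some (Sum.inr i) => S₂.K i

def combNx (e : Fin 2) : Option (S₁.ι ⊕ S₂.ι) → Option (S₁.ι ⊕ S₂.ι)
  | none => if e = 0 then some (Sum.inl S₁.root) else some (Sum.inr S₂.root)
  | some (Sum.inl i) => some (Sum.inl (S₁.nx e i))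
  | some (Sum.inr i) => some (Sum.inr (S₂.nx e i))

def combEl (e : Fin 2) : Option (S₁.ι ⊕ S₂.ι) → G
  | none => 1
  | some (Sum.inl i) => S₁.el e i
  | some (Sum.inr i) => S₂.el e i

theorem combReach1 {i : S₁.ι} {g : G} (h : Reach S₁.nx S₁.el S₁.root i g) :
    Reach (combNx S₁ S₂) (combEl S₁ S₂) none (some (Sum.inl i)) g := by
  induction h with
  | base =>
    have := Reach.step (nx := combNx S₁ S₂) (el := combEl S₁ S₂) (root := none) 0 none 1 Reach.base
    simpa [combNx, combEl] using this
  | step e i g _ ih => exact Reach.step e (some (Sum.inl i)) g ih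

theorem combReach2 {i : S₂.ι} {g : G} (h : Reach S₂.nx S₂.el S₂.root i g) :
    Reach (combNx S₁ S₂) (combEl S₁ S₂) none (some (Sum.inr i)) g := by
  induction h with
  | base =>
    have := Reach.step (nx := combNx S₁ S₂) (el := combEl S₁ S₂) (root := none) 1 none 1 Reach.base
    simpa [combNx, combEl] using this
  | step e i g _ ih => exact Reach.step e (some (Sum.inr i)) g ih

def combSys : Sys G :=
  have := S₁.fin
  have := S₂.fin
  { ι := Option (S₁.ι ⊕ S₂.ι)
    fin := inferInstance
    big := by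
      have h : Nat.card S₁.ι ≤ Nat.card (Option (S₁.ι ⊕ S₂.ι)) :=
        Nat.card_le_card_of_injective (fun i => some (Sum.inl i)) (fun a b h => by simpa using h)
      exact S₁.big.trans h
    K := combK S₁ S₂
    nx := combNx S₁ S₂
    el := combEl S₁ S₂
    cond := by
      intro e i x hx
      rcases i with _ | (i | i)
      · simp only [combK, Subgroup.mem_bot] at hx
        subst hx
        simp only [combEl, inv_one, mul_one]
        exact Subgroup.one_mem _
      · exact S₁.cond e i x hx
      · exact S₂.cond e i x hx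
    root := none
    root_bot := rfl
    reach := by
      intro i
      rcases i with _ | (i | i)
      · exact ⟨1, Reach.base⟩
      · obtain ⟨g, hg⟩ := S₁.reach i
        exact ⟨g, combReach1 S₁ S₂ hg⟩
      · obtain ⟨g, hg⟩ := S₂.reach i
        exact ⟨g, combReach2 S₁ S₂ hg⟩ }

theorem comb_card [Finite G] :
    Nat.card (Σ i, G ⧸ (combSys S₁ S₂).K i) =
      Nat.card G + (Nat.card (Σ i, G ⧸ S₁.K i) + Nat.card (Σ i, G ⧸ S₂.K i)) := by
  classical
  have := S₁.fin
  have := S₂.fin
  have : Fintype S₁.ι := Fintype.ofFinite _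
  have : Fintype S₂.ι := Fintype.ofFinite _
  change Nat.card (Σ i : Option (S₁.ι ⊕ S₂.ι), G ⧸ combK S₁ S₂ i) = _
  rw [Nat.card_sigma, Nat.card_sigma, Nat.card_sigma, Fintype.sum_option, Fintype.sum_sum_type]
  congr 1
  exact Subgroup.index_bot

end

theorem combR : CombR := by
  intro G _ _ m n P Q ⟨S₁, h1, hP⟩ ⟨S₂, h2, hQ⟩
  refine ⟨combSys S₁ S₂, ?_, ?_⟩
  · rw [comb_card]
    omega
  · intro α hα
    refine ⟨hP α ?_, hQ α ?_⟩
    · intro i g g' hg hg' k k' h
      exact hα (some (Sum.inl i)) g g' (combReach1 S₁ S₂ hg) (combReach1 S₁ S₂ hg') k k' h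
    · intro i g g' hg hg' k k' h
      exact hα (some (Sum.inr i)) g g' (combReach2 S₁ S₂ hg) (combReach2 S₁ S₂ hg') k k' h

end Pool.Agent.H104R3.EG
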